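import Pool.Agent.Helper49.UG.Ch3
import Pool.Agent.Helper64.UG.Tail

/-!
# UG, Z2 and Z3: the trivial count of zeros and the chain
-/

set_option autoImplicit false
open MeasureTheory Set Filter Topology
open Pool.Agent.Helper57.Zeta Pool.Agent.Helper57.LH Pool.Agent.Helper57.ED Pool.Agent.Helper54.LG

namespace Pool.Agent.Helper69.UG

/-- Z2: trivial count -/
theorem triv : ∃ C : ℝ, 0 < C ∧ ∀ (t : ℝ) (Z : Finset ZS), (∀ ρ ∈ Z, |(ρ : ℂ).im - t| ≤ 1) →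
    ∑ ρ ∈ Z, mx ρ ≤ C * Real.log (4 + |t|) := by
  obtain ⟨C, hC, hb⟩ := Pool.Agent.Helper64.UG.xi_le64
  refine ⟨5 / 2 * (C + 1), by linarith, fun t Z hZ => ?_⟩
  have hm0 : ∀ ρ : ZS, 0 ≤ mx (ρ : ℂ) := fun ρ => by unfold mx; positivity
  have hs := Pool.Agent.Helper64.UG.hasSum64 (B := 2) (by norm_num) t
  have hre : ∀ ρ : ZS, 1 ≤ 2 - (ρ : ℂ).re ∧ 2 - (ρ : ℂ).re ≤ 2 := fun ρ => by
    have hβ := zs_re ρ
    constructor <;> linarith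
  have hb0 : ∀ ρ : ZS, 0 < (2 - (ρ : ℂ).re) ^ 2 + (t - (ρ : ℂ).im) ^ 2 := fun ρ =>
    add_pos_of_pos_of_nonneg (pow_pos (by linarith [(hre ρ).1]) 2) (sq_nonneg _)
  have h1 : ∑ ρ ∈ Z, mx ρ ≤ 5 / 2 * (logDeriv xi (((2 : ℝ) : ℂ) + (t : ℂ) * Complex.I)).re := by
    have h3 := sum_le_hasSum Z (fun ρ _ => mul_nonneg (hm0 ρ) (div_nonneg (by linarith [(hre ρ).1]) (hb0 ρ).le)) hs
    have h4 : ∑ ρ ∈ Z, mx ρ ≤ ∑ ρ ∈ Z, 5 / 2 * (mx ρ * ((2 - (ρ : ℂ).re) /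
        ((2 - (ρ : ℂ).re) ^ 2 + (t - (ρ : ℂ).im) ^ 2))) := by
      refine Finset.sum_le_sum fun ρ hρ => ?_
      have h5 : (t - (ρ : ℂ).im) ^ 2 ≤ 1 := by
        rw [← sq_abs, abs_sub_comm]
        exact pow_le_one₀ (abs_nonneg _) (hZ ρ hρ)
      have h6 : 2 / 5 ≤ (2 - (ρ : ℂ).re) / ((2 - (ρ : ℂ).re) ^ 2 + (t - (ρ : ℂ).im) ^ 2) := by
        rw [le_div_iff₀ (hb0 ρ)]
        nlinarith only [(hre ρ).1, (hre ρ).2, h5]
      have h7 := mul_le_mul_of_nonneg_left h6 (hm0 ρ)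
      linarith only [h7]
    rw [← Finset.mul_sum] at h4
    linarith only [h3, h4]
  have h2 := hb (((2 : ℝ) : ℂ) + (t : ℂ) * Complex.I) (by simp)
  have hn : ‖((2 : ℝ) : ℂ) + (t : ℂ) * Complex.I‖ ≤ 2 + |t| := by
    refine (norm_add_le _ _).trans ?_
    rw [norm_mul, Complex.norm_I, mul_one, Complex.norm_real, Complex.norm_real, Real.norm_eq_abs, Real.norm_eq_abs,
      abs_of_pos (by norm_num : (0 : ℝ) < 2)]
  have h4 : Real.log (‖((2 : ℝ) : ℂ) + t * Complex.I‖ + 2) ≤ Real.log (4 + |t|) :=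
    Real.log_le_log (by have := norm_nonneg (((2 : ℝ) : ℂ) + t * Complex.I); linarith) (by linarith)
  have h5 : 1 ≤ Real.log (4 + |t|) := by
    have h6 := Real.exp_one_lt_d9
    have h7 := abs_nonneg t
    rw [Real.le_log_iff_exp_le (by linarith)]
    linarith
  have h6 : C ≤ C * Real.log (4 + |t|) := le_mul_of_one_le_right hC h5
  linarith only [h1, h2, h4, h6]

/-- Z3: the chain -/
theorem chain : ∃ C : ℝ, 0 < C ∧ ∀ T : ℝ, 3 ≤ T → ∀ c y : ℝ, 0 < y → ∀ K : ℕ, 1 ≤ K → 4 * 2 ^ K * y ≤ Real.log T / 4 →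
    ∀ (t : ℝ) (Z : Finset ZS),
    (∀ ρ ∈ Z, y ≤ Real.log T * ((ρ : ℂ).re - 1 / 2) ∧ Real.log T * ((ρ : ℂ).re - 1 / 2) ≤ 2 * y ∧
      |(ρ : ℂ).im - t| ≤ y / Real.log T) →
    ∑ ρ ∈ Z, mx ρ ≤ GY T c y K t + C * Real.log (4 + |t|) * (2 * cen T c y (K - 1) t) := chain_of triv

end Pool.Agent.Helper69.UG
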